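import Mathlib
import Pool.Agent.InscribedSimplex.Main

set_option autoImplicit false

namespace Pool.Agent.Results.MP_54add4_co.ChainSimplex

/-- The pair `(S, M)` has property (L), for a simplex with vertices `S 0, …, S d` in `ℝ^d` and a
set `M ⊆ ℝ^d`.  The boundary of `M` is the topological frontier; a simplex similar to `S` is the
image of `S` under `x ↦ g (c • x)` with `c > 0` and `g` an isometry of `ℝ^d`. -/
def PropertyL {d : ℕ} (S : Fin (d + 1) → EuclideanSpace ℝ (Fin d))
    (M : Set (EuclideanSpace ℝ (Fin d))) : Prop :=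
  ∃ σ : ℝ, 0 < σ ∧ ∀ τ : ℝ, 0 < τ → τ ≤ σ →
    ∀ f : EuclideanSpace ℝ (Fin d) → ℝ, ContinuousOn f M → (∀ x ∈ M, 0 ≤ f x) →
      (∀ x ∈ frontier M, f x = 0) →
      ∃ (g : EuclideanSpace ℝ (Fin d) ≃ᵢ EuclideanSpace ℝ (Fin d)) (c : ℝ), 0 < c ∧
        (∀ i, g (c • S i) ∈ M) ∧ (∀ i j, f (g (c • S i)) = f (g (c • S j))) ∧
        Metric.diam (convexHull ℝ (Set.range fun i => g (c • S i))) = τ

/-- `S` is a chain simplex: for an ordering of the vertices, each vertex is equidistant from all
later ones.  For `d = 2` these are the isosceles triangles; regular simplices are of this kind. -/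
def IsChainSimplex {d : ℕ} (S : Fin (d + 1) → EuclideanSpace ℝ (Fin d)) : Prop :=
  AffineIndependent ℝ S ∧
    ∀ i j l : Fin (d + 1), i < j → i < l → dist (S i) (S j) = dist (S i) (S l)

/-- **Main theorem.**  For every `d ≥ 1`, every chain simplex `S` in `ℝ^d` (in particular every
isosceles triangle and every regular simplex) and every compact `M ⊆ ℝ^d` with nonempty interior,
the pair `(S, M)` has property (L). -/
theorem result {d : ℕ} (hd : 1 ≤ d) (S : Fin (d + 1) → EuclideanSpace ℝ (Fin d))
    (hS : IsChainSimplex S) (M : Set (EuclideanSpace ℝ (Fin d))) (hM : IsCompact M)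
    (hint : (interior M).Nonempty) : PropertyL S M := by
  obtain ⟨k, rfl⟩ : ∃ k, d = k + 1 := ⟨d - 1, by omega⟩
  exact Pool.Agent.InscribedSimplex.main hS.1 hS.2 hM hint

end Pool.Agent.Results.MP_54add4_co.ChainSimplex
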