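import Mathlib
import Pool.Agent.FPT.Final
import Pool.Agent.InscribedSimplex.Main

set_option autoImplicit false

namespace Pool.Agent.Results.MP_54add4_co.FlatPoint

/-- The pair `(S, M)` has property (L), for a simplex with vertices `S 0, …, S d` in `ℝ^d` and a
set `M ⊆ ℝ^d`.  The boundary of `M` is the topological frontier; a simplex similar to `S` is the
image of `S` under `x ↦ g (c • x)` with `c > 0` and `g` an isometry of `ℝ^d`. -/
def PropertyL {d : ℕ} (S : Fin (d + 1) → EuclideanSpace ℝ (Fin d))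
    (M : Set (EuclideanSpace ℝ (Fin d))) : Prop :=
  ∃ σ : ℝ, 0 < σ ∧ ∀ τ : ℝ, 0 < τ → τ ≤ σ →
    ∀ f : EuclideanSpace ℝ (Fin d) → ℝ, ContinuousOn f M → (∀ x ∈ M, 0 ≤ f x) →
      (∀ x ∈ frontier M, f x = 0) →
      ∃ (g : EuclideanSpace ℝ (Fin d) ≃ᵢ EuclideanSpace ℝ (Fin d)) (c : ℝ), 0 < c ∧
        (∀ i, g (c • S i) ∈ M) ∧ (∀ i j, f (g (c • S i)) = f (g (c • S j))) ∧
        Metric.diam (convexHull ℝ (Set.range fun i => g (c • S i))) = τ

/-- `M` is flat at scale `s`, up to `ε s`, at some place: for some point `p` and unit vector `n`, the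
points of the ball of radius `s` about `p` with height `≥ ε s` over the hyperplane through `p`
orthogonal to `n` belong to `M`, those with height `≤ - ε s` are not interior points of `M`. -/
def FlatAt {d : ℕ} (M : Set (EuclideanSpace ℝ (Fin d))) (ε s : ℝ) : Prop :=
  ∃ p n : EuclideanSpace ℝ (Fin d), ‖n‖ = 1 ∧
    (∀ x, dist x p ≤ s → ε * s ≤ inner ℝ (x - p) n → x ∈ M) ∧
    (∀ x, dist x p ≤ s → inner ℝ (x - p) n ≤ -(ε * s) → x ∉ interior M)

/-- **Main theorem.**  For every `d ≥ 1` and every `d`-simplex `S` there is `ε > 0` such that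
`(S, M)` has property (L) for every compact `M ⊆ ℝ^d` that is flat up to `ε s` at every small scale
`s` (at some place, which may depend on `s`). -/
theorem result {d : ℕ} (hd : 1 ≤ d) (S : Fin (d + 1) → EuclideanSpace ℝ (Fin d))
    (hS : AffineIndependent ℝ S) :
    ∃ ε : ℝ, 0 < ε ∧ ∀ M : Set (EuclideanSpace ℝ (Fin d)), IsCompact M →
      (∃ σ₀ : ℝ, 0 < σ₀ ∧ ∀ s, 0 < s → s ≤ σ₀ → FlatAt M ε s) → PropertyL S M := by
  rcases Nat.lt_or_ge d 2 with h | h
  · obtain rfl : d = 1 := by omega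
    refine ⟨1 / 2, by norm_num, ?_⟩
    rintro M hM ⟨σ₀, hσ₀, hflat⟩
    obtain ⟨p, n, hn, hp, -⟩ := hflat σ₀ hσ₀ le_rfl
    apply Pool.Agent.InscribedSimplex.main (k := 0) hS ?_ hM
    · refine ⟨p + (3 / 4 * σ₀) • n, ?_⟩
      rw [mem_interior]
      refine ⟨{x | dist x p < σ₀} ∩ {x | 1 / 2 * σ₀ < inner ℝ (x - p) n}, ?_, ?_, ?_⟩
      · rintro x ⟨hx1, hx2⟩
        have hx1' : dist x p < σ₀ := hx1
        have hx2' : 1 / 2 * σ₀ < inner ℝ (x - p) n := hx2
        exact hp x hx1'.le hx2'.le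
      · apply IsOpen.inter
        · exact isOpen_lt (by fun_prop) continuous_const
        · exact isOpen_lt continuous_const (by fun_prop)
      · constructor
        · show dist (p + (3 / 4 * σ₀) • n) p < σ₀
          rw [dist_self_add_left, norm_smul, hn, Real.norm_of_nonneg (by positivity)]
          linarith
        · show 1 / 2 * σ₀ < inner ℝ (p + (3 / 4 * σ₀) • n - p) n
          rw [add_sub_cancel_left, real_inner_smul_left, real_inner_self_eq_norm_sq, hn]
          linarith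
    · intro i j l hij hil
      have : j = l := by omega
      rw [this]
  · obtain ⟨m, rfl⟩ : ∃ m, d = m + 2 := ⟨d - 2, by omega⟩
    obtain ⟨ε, hε, hmain⟩ := Pool.Agent.FPT.main hS
    refine ⟨ε, hε, ?_⟩
    rintro M hM ⟨σ₀, hσ₀, hflat⟩
    exact hmain M hM σ₀ hσ₀ hflat

end Pool.Agent.Results.MP_54add4_co.FlatPoint
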