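import Mathlib
import Pool.Agent.TriposPlane.PlaneMain

set_option autoImplicit false

namespace Pool.Agent.Results.MP_54add4_co.PlaneTriangles

/-- The pair `(S, M)` has property (L), for a simplex with vertices `S 0, …, S d` in `ℝ^d` and a
set `M ⊆ ℝ^d`.  The boundary of `M` is the topological frontier; a simplex similar to `S` is the
image of `S` under `x ↦ g (c • x)` with `c > 0` and `g` an isometry of `ℝ^d`. -/
def PropertyL {d : ℕ} (S : Fin (d + 1) → EuclideanSpace ℝ (Fin d))
    (M : Set (EuclideanSpace ℝ (Fin d))) : Prop :=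
  ∃ σ : ℝ, 0 < σ ∧ ∀ τ : ℝ, 0 < τ → τ ≤ σ →
    ∀ f : EuclideanSpace ℝ (Fin d) → ℝ, ContinuousOn f M → (∀ x ∈ M, 0 ≤ f x) →
      (∀ x ∈ frontier M, f x = 0) →
      ∃ (g : EuclideanSpace ℝ (Fin d) ≃ᵢ EuclideanSpace ℝ (Fin d)) (c : ℝ), 0 < c ∧
        (∀ i, g (c • S i) ∈ M) ∧ (∀ i j, f (g (c • S i)) = f (g (c • S j))) ∧
        Metric.diam (convexHull ℝ (Set.range fun i => g (c • S i))) = τ

/-- **Main theorem.**  For every triangle `S` in the plane (isosceles or scalene) and every compact
`M ⊆ ℝ²` with nonempty interior such that `M` and its frontier are locally path-connected (for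
instance every compact `2`-dimensional topological submanifold of `ℝ²`), the pair `(S, M)` has
property (L). -/
theorem result (S : Fin 3 → EuclideanSpace ℝ (Fin 2)) (hS : AffineIndependent ℝ S)
    (M : Set (EuclideanSpace ℝ (Fin 2))) (hM : IsCompact M) (hint : (interior M).Nonempty)
    [LocallyPathConnectedSpace M] [LocallyPathConnectedSpace (frontier M)] :
    PropertyL (d := 2) S M :=
  Pool.Agent.TriposPlane.plane_main hM hint hS

end Pool.Agent.Results.MP_54add4_co.PlaneTriangles
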